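import Pool.Agent.Q169.ZD.Stm3

/-!
# Elementary facts on buildings
-/

set_option autoImplicit false
set_option linter.unusedSectionVars false

namespace Pool.Agent.Q169.ZE

open Pool.Agent.Q169.ZD Q27.Cox

variable {B : Type} {M : CoxeterMatrix B} {W : Type} [Group W] {cs : CoxeterSystem M W}
  {Φ : Type} {δ : Φ → Φ → W}

theorem self (hδ : IsBuilding cs δ) (c : Φ) : δ c c = 1 := (hδ.eq_one_iff c c).2 rfl

/-- the auxiliary statement -/
theorem aux (hδ : IsBuilding cs δ) (ω : List B) : cs.IsReduced ω → ∀ c d e : Φ,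
    δ c d = cs.wordProd ω →
    cs.length ((cs.wordProd ω)⁻¹ * δ c e) = cs.length (cs.wordProd ω) + cs.length (δ c e) →
    δ d e = (cs.wordProd ω)⁻¹ * δ c e := by
  induction ω with
  | nil =>
    intro _ c d e h1 _
    rw [cs.wordProd_nil] at h1 ⊢
    rw [(hδ.eq_one_iff c d).1 h1, inv_one, one_mul]
  | cons b ω ih =>
    intro hr c d e h1 h2
    have hr' : cs.IsReduced ω := by
      have := hr.drop 1
      simpa using this
    have hl : cs.length (cs.wordProd (b :: ω)) = cs.length (cs.wordProd ω) + 1 := by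
      rw [hr.eq, hr'.eq, List.length_cons]
    obtain ⟨c', h3, h4⟩ := hδ.exists_adj c d b
    rw [h1, cs.wordProd_cons, cs.simple_mul_simple_cancel_left] at h4
    have e1 : (cs.wordProd (b :: ω))⁻¹ * δ c e = (cs.wordProd ω)⁻¹ * (cs.simple b * δ c e) := by
      rw [cs.wordProd_cons, mul_inv_rev, cs.inv_simple, mul_assoc]
    rw [e1, hl] at h2
    have h5 := cs.length_mul_le (cs.wordProd ω)⁻¹ (cs.simple b * δ c e)
    rw [cs.length_inv] at h5
    have h6 : cs.length (cs.simple b * δ c e) = cs.length (δ c e) + 1 := by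
      rcases cs.length_simple_mul (δ c e) b with h | h
      · exact h
      · omega
    have h7 : δ c' e = cs.simple b * δ c e := hδ.adj_of_lt c c' e b h3 (by omega)
    rw [e1, ← h7]
    refine ih hr' c' d e h4 ?_
    rw [h7]
    omega

theorem aux' (hδ : IsBuilding cs δ) (c d e : Φ)
    (h : cs.length ((δ c d)⁻¹ * δ c e) = cs.length (δ c d) + cs.length (δ c e)) :
    δ d e = (δ c d)⁻¹ * δ c e := by
  obtain ⟨ω, hω, he⟩ := cs.exists_isReduced (δ c d)
  rw [he] at h ⊢
  exact aux hδ ω hω c d e he h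

theorem symm (hδ : IsBuilding cs δ) (c d : Φ) : δ d c = (δ c d)⁻¹ := by
  have h := aux' hδ c d c (by rw [self hδ, mul_one, cs.length_one, cs.length_inv, add_zero])
  rw [h, self hδ, mul_one]

theorem simple_mem {T : Set B} {b : B} (hb : b ∈ T) : cs.simple b ∈ par cs T :=
  Subgroup.subset_closure ⟨b, hb, rfl⟩

theorem trans (hδ : IsBuilding cs δ) (T : Set B) (c d e : Φ) (h1 : δ c d ∈ par cs T)
    (h2 : δ d e ∈ par cs T) : δ c e ∈ par cs T := by
  induction hn : cs.length (δ c d) using Nat.strong_induction_on generalizing c with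
  | _ n ih =>
    by_cases h0 : δ c d = 1
    · rw [(hδ.eq_one_iff c d).1 h0]; exact h2
    · obtain ⟨b, hb⟩ := cs.exists_leftDescent_of_ne_one h0
      have hb' : cs.length (cs.simple b * δ c d) < cs.length (δ c d) := hb
      have hbT : b ∈ T := descent_mem h1 hb'
      obtain ⟨c', h3, h4⟩ := hδ.exists_adj c d b
      have h5 : δ c' d ∈ par cs T := by rw [h4]; exact mul_mem (simple_mem hbT) h1
      have h6 : δ c' e ∈ par cs T := ih _ (by rw [h4]; omega) c' h5 rfl
      rcases hδ.adj c c' e b h3 with h7 | h7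
      · have h8 : δ c e = cs.simple b * δ c' e := by
          rw [h7, cs.simple_mul_simple_cancel_left]
        rw [h8]
        exact mul_mem (simple_mem hbT) h6
      · rw [← h7]; exact h6

theorem gate (hδ : IsBuilding cs δ) (T : Set B) (c c₀ : Φ) :
    ∃ d, δ c d ∈ par cs T ∧ δ d c₀ ∈ L cs T := by
  induction hn : cs.length (δ c c₀) using Nat.strong_induction_on generalizing c with
  | _ n ih =>
    by_cases h : δ c c₀ ∈ L cs T
    · exact ⟨c, by rw [self hδ]; exact one_mem _, h⟩
    · simp only [L, Set.mem_ofPred_eq, not_forall, not_lt] at h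
      obtain ⟨b, hb, hlt⟩ := h
      have h1 : cs.length (cs.simple b * δ c c₀) + 1 = cs.length (δ c c₀) := by
        rcases cs.length_simple_mul (δ c c₀) b with h2 | h2
        · omega
        · exact h2
      obtain ⟨c', h3, h4⟩ := hδ.exists_adj c c₀ b
      obtain ⟨d, h5, h6⟩ := ih _ (by rw [h4]; omega) c' rfl
      refine ⟨d, trans hδ T c c' d ?_ h5, h6⟩
      rw [symm hδ, h3]
      exact inv_mem (simple_mem hb)

theorem gate_mul (hδ : IsBuilding cs δ) (T : Set B) (d e c₀ : Φ) (h1 : δ d e ∈ par cs T)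
    (h2 : δ d c₀ ∈ L cs T) : δ e c₀ = (δ d e)⁻¹ * δ d c₀ ∧
      cs.length (δ e c₀) = cs.length (δ d e) + cs.length (δ d c₀) := by
  have h3 := length_mul_L h2 (inv_mem h1)
  rw [cs.length_inv] at h3
  have h4 := aux' hδ d e c₀ h3
  exact ⟨h4, by rw [h4, h3]⟩

theorem gate_unique (hδ : IsBuilding cs δ) (T : Set B) (d e c₀ : Φ) (h1 : δ d e ∈ par cs T)
    (h2 : δ d c₀ ∈ L cs T) (h3 : δ e c₀ ∈ L cs T) : d = e := by
  have h4 := (gate_mul hδ T d e c₀ h1 h2).2
  have h5 : δ e d ∈ par cs T := by rw [symm hδ]; exact inv_mem h1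
  have h6 := (gate_mul hδ T e d c₀ h5 h3).2
  rw [symm hδ d e, cs.length_inv] at h6
  rw [← hδ.eq_one_iff, ← cs.length_eq_zero_iff]
  omega

theorem bld : S_BLD := fun _ _ _ _ _ _ _ hδ =>
  ⟨symm hδ, fun T c d e => trans hδ T c d e, fun T c c₀ => gate hδ T c c₀,
    fun T d e c₀ => gate_mul hδ T d e c₀, fun T d e c₀ => gate_unique hδ T d e c₀⟩

end Pool.Agent.Q169.ZE
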