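import Pool.Agent.Q169.ZE.Mat

/-!
# The Davis realisation of a building as an acyclic complex
-/

set_option autoImplicit false
set_option linter.unusedSectionVars false

namespace Pool.Agent.Q169.ZE

open Pool.Agent.Q169.ZD Q27.Cox
open Pool.Agent.TH38.CX (AcyclicGComplex)
open scoped Pointwise

noncomputable section

open scoped Classical

variable {B : Type} {M : CoxeterMatrix B} {W : Type} [Group W] (cs : CoxeterSystem M W)
  {Φ : Type} (δ : Φ → Φ → W)

/-- the residue of type `T` -/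
def rs (T : Set B) (c : Φ) : Set Φ := {d | δ c d ∈ par cs T}

/-- the cells -/
def CX : Type := {x : Itv cs × Set Φ // ∃ c, x.2 = rs cs δ (x.1.lo : Set B) c}

/-- the cell of `p` and `c` -/
def kap (p : Itv cs) (c : Φ) : CX cs δ := ⟨(p, rs cs δ (p.lo : Set B) c), c, rfl⟩

theorem rs_eq_iff {cs : CoxeterSystem M W} {δ : Φ → Φ → W} (hδ : IsBuilding cs δ) (T : Set B)
    (c c' : Φ) : rs cs δ T c = rs cs δ T c' ↔ δ c c' ∈ par cs T := by
  constructor
  · intro h
    have h1 : c' ∈ rs cs δ T c' := by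
      change δ c' c' ∈ par cs T
      rw [self hδ]
      exact one_mem _
    rw [← h] at h1
    exact h1
  · intro h
    ext d
    constructor
    · intro h1
      exact trans hδ T c' c d (by rw [symm hδ]; exact inv_mem h) h1
    · intro h1
      exact trans hδ T c c' d h h1

theorem kap_eq_iff {cs : CoxeterSystem M W} {δ : Φ → Φ → W} (hδ : IsBuilding cs δ) (p p' : Itv cs)
    (c c' : Φ) : kap cs δ p c = kap cs δ p' c' ↔ p = p' ∧ δ c c' ∈ par cs (p.lo : Set B) := by
  constructor
  · intro h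
    have h1 := congrArg Subtype.val h
    have h2 := Prod.mk.inj h1
    obtain ⟨h3, h4⟩ := h2
    subst h3
    exact ⟨rfl, (rs_eq_iff hδ _ _ _).1 h4⟩
  · rintro ⟨rfl, h⟩
    exact Subtype.ext (Prod.ext rfl ((rs_eq_iff hδ _ _ _).2 h))

section action

variable {N : Type} [Group N] [MulAction N Φ]

theorem smul_rs {cs : CoxeterSystem M W} {δ : Φ → Φ → W}
    (hN : ∀ (n : N) c d, δ (n • c) (n • d) = δ c d) (T : Set B) (n : N) (c : Φ) :
    n • rs cs δ T c = rs cs δ T (n • c) := by
  ext d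
  rw [Set.mem_smul_set_iff_inv_smul_mem]
  change δ c (n⁻¹ • d) ∈ par cs T ↔ δ (n • c) d ∈ par cs T
  rw [← hN n c (n⁻¹ • d), smul_inv_smul]

/-- the action on the cells -/
@[instance_reducible] def actX {cs : CoxeterSystem M W} {δ : Φ → Φ → W}
    (hN : ∀ (n : N) c d, δ (n • c) (n • d) = δ c d) : MulAction N (CX cs δ) where
  smul n x := ⟨(x.1.1, n • x.1.2), by
    obtain ⟨c, hc⟩ := x.2
    refine ⟨n • c, ?_⟩
    change n • x.1.2 = _
    rw [hc, smul_rs hN]⟩
  one_smul x := Subtype.ext (Prod.ext rfl (one_smul N x.1.2))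
  mul_smul n m x := Subtype.ext (Prod.ext rfl (mul_smul n m x.1.2))

end action

variable [Finite B] [LinearOrder B]

/-- the boundary -/
def bdX (x : CX cs δ) : CX cs δ →₀ ℤ :=
  ∑ p', kinc x.1.1 p' • Finsupp.single (kap cs δ p' x.2.choose) 1

theorem bdX_kap {cs : CoxeterSystem M W} {δ : Φ → Φ → W} (hd : S_KDEG) (hδ : IsBuilding cs δ)
    (p : Itv cs) (c : Φ) : bdX cs δ (kap cs δ p c) =
      ∑ p', kinc p p' • Finsupp.single (kap cs δ p' c) 1 := by
  rw [bdX]
  change ∑ p', kinc p p' • Finsupp.single (kap cs δ p' (kap cs δ p c).2.choose) 1 = _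
  refine Finset.sum_congr rfl fun p' _ => ?_
  by_cases h0 : kinc p p' = 0
  · rw [h0, zero_smul, zero_smul]
  · have h1 := ((hd B M W cs).1 p p' h0).2.1
    have h2 : rs cs δ (p.lo : Set B) c = rs cs δ (p.lo : Set B) (kap cs δ p c).2.choose :=
      (kap cs δ p c).2.choose_spec
    rw [rs_eq_iff hδ] at h2
    have h3 : kap cs δ p' (kap cs δ p c).2.choose = kap cs δ p' c := by
      rw [kap_eq_iff hδ]
      refine ⟨rfl, ?_⟩
      rw [symm hδ]
      refine inv_mem (?_ : δ c _ ∈ _)
      exact (Subgroup.closure_mono (Set.image_mono (by exact_mod_cast h1)) :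
        par cs (p.lo : Set B) ≤ par cs (p'.lo : Set B)) h2
    rw [h3]

theorem bu (hd : S_KDEG) (hs : S_KSQ) (hg : S_GR) (hm : S_MATCH) : S_BU := by
  intro B _ _ M W _ cs Φ hΦ δ hδ N _ _ hN
  have hsurj : ∀ x : CX cs δ, ∃ p c, x = kap cs δ p c := by
    rintro ⟨⟨p, R⟩, c, hc⟩
    have hc' : R = rs cs δ (p.lo : Set B) c := hc
    subst hc'
    exact ⟨p, c, rfl⟩
  obtain ⟨h, ρ, x₀, m1, m2, m3, m4⟩ := hm B M W cs Φ δ hδ hΦ (CX cs δ) (kap cs δ) hsurj
    (kap_eq_iff hδ) (fun x => x.1.1.deg) (fun _ _ => rfl) (bdX cs δ) (bdX_kap hd hδ)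
  let _ := actX (cs := cs) (δ := δ) hN
  have hsm : ∀ (n : N) p c, n • kap cs δ p c = kap cs δ p (n • c) := by
    intro n p c
    exact Subtype.ext (Prod.ext rfl (smul_rs hN _ n c))
  have hB := Fintype.ofFinite B
  obtain ⟨U, e, he1, he2⟩ := hg N (CX cs δ) (fun x => x.1.1.deg) ρ (bdX cs δ) h x₀ (Fintype.card B)
    (fun n x => rfl) (fun x => Finset.card_le_univ _)
    (by
      intro n x
      obtain ⟨p, c, rfl⟩ := hsurj x
      rw [hsm, bdX_kap hd hδ, bdX_kap hd hδ, Finsupp.mapDomain_finsetSum]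
      refine Finset.sum_congr rfl fun p' _ => ?_
      rw [Finsupp.mapDomain_smul, Finsupp.mapDomain_single, hsm])
    (by
      intro x
      obtain ⟨p, c, rfl⟩ := hsurj x
      have h1 : lext (bdX cs δ) (bdX cs δ (kap cs δ p c)) =
          ∑ p', kinc p p' • bdX cs δ (kap cs δ p' c) := by
        conv_lhs => rw [bdX_kap hd hδ p c]
        exact lext_sum (bdX cs δ) Finset.univ (fun p' => kinc p p') (fun p' => kap cs δ p' c)
      rw [h1]
      have h2 : ∀ p', kinc p p' • bdX cs δ (kap cs δ p' c) =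
          ∑ p'', (kinc p p' * kinc p' p'') • Finsupp.single (kap cs δ p'' c) (1 : ℤ) := by
        intro p'
        rw [bdX_kap hd hδ, Finset.smul_sum]
        exact Finset.sum_congr rfl fun p'' _ => (mul_smul _ _ _).symm
      rw [Finset.sum_congr rfl fun p' _ => h2 p', Finset.sum_comm]
      refine Finset.sum_eq_zero fun p'' _ => ?_
      rw [← Finset.sum_smul, hs B M W cs p p'', zero_smul])
    (by
      intro x y hxy
      obtain ⟨p, c, rfl⟩ := hsurj x
      rw [bdX_kap hd hδ, Finsupp.finsetSum_apply] at hxy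
      obtain ⟨p', _, h2⟩ := Finset.exists_ne_zero_of_sum_ne_zero hxy
      rw [Finsupp.smul_apply, Finsupp.single_apply] at h2
      by_cases h3 : kap cs δ p' c = y
      · rw [if_pos h3] at h2
        have h4 : kinc p p' ≠ 0 := fun h0 => h2 (by rw [h0, zero_smul])
        have h5 := ((hd B M W cs).1 p p' h4).1
        rw [← h3]
        exact h5
      · rw [if_neg h3, smul_zero] at h2
        exact absurd rfl h2)
    (by
      intro x hx
      obtain ⟨p, c, rfl⟩ := hsurj x
      have h1 : ∀ z : CX cs δ →₀ ℤ, (z.sum fun _ n => n) = Finsupp.liftAddHom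
          (fun _ => AddMonoidHom.id ℤ) z := fun z => rfl
      rw [h1, bdX_kap hd hδ, map_sum]
      have h2 := (hd B M W cs).2 p hx
      rw [← h2]
      refine Finset.sum_congr rfl fun p' _ => ?_
      rw [map_zsmul, Finsupp.liftAddHom_apply_single]
      simp)
    m3 m4 m1 m2
  refine ⟨U, fun n p c => (e n).symm ⟨kap cs δ p.1 c, p.2⟩, ?_, ?_, ?_, ?_⟩
  · intro n x
    obtain ⟨p, c, hpc⟩ := hsurj (e n x : CX cs δ)
    have hdeg : p.deg = n := by
      have := (e n x).2
      rw [hpc] at this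
      exact this
    refine ⟨⟨p, hdeg⟩, c, ?_⟩
    rw [Equiv.eq_symm_apply]
    exact Subtype.ext hpc
  · intro n p p' c c'
    rw [(e n).symm.injective.eq_iff]
    constructor
    · intro h1
      have h2 := (kap_eq_iff hδ _ _ _ _).1 (congrArg Subtype.val h1)
      exact ⟨Subtype.ext h2.1, h2.2⟩
    · rintro ⟨h1, h2⟩
      exact Subtype.ext ((kap_eq_iff hδ _ _ _ _).2 ⟨congrArg Subtype.val h1, h2⟩)
  · intro n g p c
    apply (e n).injective
    apply Subtype.ext
    rw [he1, Equiv.apply_symm_apply, Equiv.apply_symm_apply]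
    exact hsm g p.1 c
  · intro n p c
    ext y
    rw [he2, Equiv.apply_symm_apply, bdX_kap hd hδ, Finsupp.finsetSum_apply,
      Finsupp.finsetSum_apply]
    have h1 : ∀ p' : {p : Itv cs // p.deg = n},
        (kinc p.1 p'.1 • Finsupp.single ((e n).symm ⟨kap cs δ p'.1 c, p'.2⟩) (1 : ℤ)) y =
        (kinc p.1 p'.1 • Finsupp.single (kap cs δ p'.1 c) (1 : ℤ)) (e n y : CX cs δ) := by
      intro p'
      rw [Finsupp.smul_apply, Finsupp.smul_apply, Finsupp.single_apply, Finsupp.single_apply]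
      have h2 : (e n).symm ⟨kap cs δ p'.1 c, p'.2⟩ = y ↔ kap cs δ p'.1 c = (e n y : CX cs δ) := by
        rw [Equiv.symm_apply_eq]
        exact Subtype.ext_iff
      simp only [h2]
    rw [Finset.sum_congr rfl fun p' _ => h1 p']
    rw [← Finset.sum_subtype (Finset.univ.filter fun p' : Itv cs => p'.deg = n)
      (fun p' => by simp) (fun p' => (kinc p.1 p' • Finsupp.single (kap cs δ p' c) (1 : ℤ))
        (e n y : CX cs δ))]
    symm
    refine Finset.sum_filter_of_ne fun p' _ hne => ?_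
    rw [Finsupp.smul_apply, Finsupp.single_apply] at hne
    by_cases h3 : kap cs δ p' c = (e n y : CX cs δ)
    · have h4 := (e n y).2
      rw [← h3] at h4
      exact h4
    · rw [if_neg h3, smul_zero] at hne
      exact absurd rfl hne

end

end Pool.Agent.Q169.ZE
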