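import Pool.Agent.Q169.ZE.Bld

/-!
# The weight function of a regular building
-/

set_option autoImplicit false
set_option linter.unusedSectionVars false

namespace Pool.Agent.Q169.ZE

open Pool.Agent.Q169.ZD Q27.Cox

variable {B : Type} {M : CoxeterMatrix B} {W : Type} [Group W] {cs : CoxeterSystem M W}
  {Φ : Type} {δ : Φ → Φ → W}

/-- the fibration of the sphere of type `s g` over the sphere of type `g` -/
theorem union (hδ : IsBuilding cs δ) (b : B) (g : W) (c₀ : Φ)
    (hg : cs.length g < cs.length (cs.simple b * g)) :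
    {c | δ c c₀ = cs.simple b * g} = ⋃ c ∈ {c | δ c c₀ = g}, {c' | δ c' c = cs.simple b} := by
  ext c'
  simp only [Set.mem_iUnion, Set.mem_ofPred_eq, exists_prop]
  constructor
  · intro h
    obtain ⟨c, h1, h2⟩ := hδ.exists_adj c' c₀ b
    rw [h, cs.simple_mul_simple_cancel_left] at h2
    exact ⟨c, h2, by rw [symm hδ, h1, cs.inv_simple]⟩
  · rintro ⟨c, h1, h2⟩
    rw [hδ.adj_of_lt c c' c₀ b h2 (by rw [h1]; exact hg), h1]

theorem disj (hδ : IsBuilding cs δ) (b : B) (g : W) (c₀ : Φ)
    (hg : cs.length g < cs.length (cs.simple b * g)) :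
    ({c | δ c c₀ = g} : Set Φ).PairwiseDisjoint (fun c => {c' | δ c' c = cs.simple b}) := by
  intro c hc d hd hcd
  rw [Function.onFun, Set.disjoint_left]
  intro c' h1 h2
  apply hcd
  have h1' : δ c' c = cs.simple b := h1
  have h2' : δ c' d = cs.simple b := h2
  have hL : ∀ x : Φ, δ x c₀ = g → δ x c₀ ∈ L cs {b} := by
    intro x hx j hj
    rw [Set.mem_singleton_iff] at hj
    rw [hj, hx]
    exact hg
  refine gate_unique hδ {b} c d c₀ ?_ (hL c hc) (hL d hd)
  refine trans hδ {b} c c' d ?_ ?_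
  · rw [symm hδ, h1']
    exact inv_mem (simple_mem rfl)
  · rw [h2']
    exact simple_mem rfl

variable {k : B → ℕ}

theorem fib_finite (hk : ∀ b c, {c' | δ c' c = cs.simple b}.encard = k b) (b : B) (c : Φ) :
    {c' | δ c' c = cs.simple b}.Finite := by
  rw [← Set.encard_ne_top_iff, hk]
  exact ENat.natCast_ne_top _

theorem fib_ncard (hk : ∀ b c, {c' | δ c' c = cs.simple b}.encard = k b) (b : B) (c : Φ) :
    {c' | δ c' c = cs.simple b}.ncard = k b := by
  rw [Set.ncard, hk, ENat.toNat_natCast]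

theorem k_pos (hδ : IsBuilding cs δ) [Nonempty Φ]
    (hk : ∀ b c, {c' | δ c' c = cs.simple b}.encard = k b) (b : B) : 0 < k b := by
  obtain ⟨c⟩ := ‹Nonempty Φ›
  obtain ⟨c', h1, -⟩ := hδ.exists_adj c c b
  rw [← fib_ncard hk b c, Set.ncard_pos (fib_finite hk b c)]
  exact ⟨c', h1⟩

theorem sum_step (hδ : IsBuilding cs δ) (hk : ∀ b c, {c' | δ c' c = cs.simple b}.encard = k b)
    (b : B) (g : W) (c₀ : Φ) (hg : cs.length g < cs.length (cs.simple b * g))
    (hfin : {c | δ c c₀ = g}.Finite) (f : Φ → ℂ) (hf : ∀ c c', δ c' c = cs.simple b → f c' = f c) :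
    ∑ᶠ c ∈ {c | δ c c₀ = cs.simple b * g}, f c = (k b : ℂ) * ∑ᶠ c ∈ {c | δ c c₀ = g}, f c := by
  rw [union hδ b g c₀ hg, finsum_mem_biUnion (disj hδ b g c₀ hg) hfin
    (fun c _ => fib_finite hk b c)]
  rw [finsum_mem_eq_finite_toFinset_sum _ hfin, finsum_mem_eq_finite_toFinset_sum _ hfin,
    Finset.mul_sum]
  refine Finset.sum_congr rfl fun c _ => ?_
  rw [finsum_mem_congr rfl (fun c' (hc' : c' ∈ {c' | δ c' c = cs.simple b}) => hf c c' hc'),
    finsum_mem_eq_finite_toFinset_sum _ (fib_finite hk b c), Finset.sum_const,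
    ← Set.ncard_eq_toFinset_card _ (fib_finite hk b c), fib_ncard hk, nsmul_eq_mul]

theorem finite_step (hδ : IsBuilding cs δ) (hk : ∀ b c, {c' | δ c' c = cs.simple b}.encard = k b)
    (b : B) (g : W) (c₀ : Φ) (hg : cs.length g < cs.length (cs.simple b * g))
    (hfin : {c | δ c c₀ = g}.Finite) : {c | δ c c₀ = cs.simple b * g}.Finite := by
  rw [union hδ b g c₀ hg]
  exact hfin.biUnion fun c _ => fib_finite hk b c

theorem ncard_sum {A : Set Φ} (hA : A.Finite) : ∑ᶠ _c ∈ A, (1 : ℂ) = (A.ncard : ℂ) := by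
  rw [finsum_mem_eq_finite_toFinset_sum _ hA, Finset.sum_const,
    ← Set.ncard_eq_toFinset_card _ hA, nsmul_eq_mul, mul_one]

theorem ncard_step (hδ : IsBuilding cs δ) (hk : ∀ b c, {c' | δ c' c = cs.simple b}.encard = k b)
    (b : B) (g : W) (c₀ : Φ) (hg : cs.length g < cs.length (cs.simple b * g))
    (hfin : {c | δ c c₀ = g}.Finite) :
    {c | δ c c₀ = cs.simple b * g}.ncard = k b * {c | δ c c₀ = g}.ncard := by
  have h1 := sum_step hδ hk b g c₀ hg hfin (fun _ => 1) (fun _ _ _ => rfl)
  rw [ncard_sum hfin, ncard_sum (finite_step hδ hk b g c₀ hg hfin)] at h1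
  exact_mod_cast h1

theorem word (hδ : IsBuilding cs δ) (hk : ∀ b c, {c' | δ c' c = cs.simple b}.encard = k b)
    (ω : List B) : cs.IsReduced ω → ∀ c₀ : Φ, {c | δ c c₀ = cs.wordProd ω}.Finite ∧
      {c | δ c c₀ = cs.wordProd ω}.ncard = (ω.map k).prod := by
  induction ω with
  | nil =>
    intro _ c₀
    have h : {c | δ c c₀ = cs.wordProd []} = {c₀} := by
      ext c
      rw [cs.wordProd_nil]
      exact hδ.eq_one_iff c c₀
    rw [h]
    exact ⟨Set.finite_singleton _, by simp⟩
  | cons b ω ih =>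
    intro hr c₀
    have hr' : cs.IsReduced ω := by
      have := hr.drop 1
      simpa using this
    obtain ⟨h1, h2⟩ := ih hr' c₀
    have hg : cs.length (cs.wordProd ω) < cs.length (cs.simple b * cs.wordProd ω) := by
      rw [← cs.wordProd_cons, hr.eq, hr'.eq, List.length_cons]
      omega
    rw [cs.wordProd_cons]
    exact ⟨finite_step hδ hk b _ c₀ hg h1, by rw [ncard_step hδ hk b _ c₀ hg h1, h2]; simp⟩

theorem cnt : S_CNT := by
  intro B M W _ cs Φ _ δ hδ k hk
  -- the chosen reduced word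
  choose ω hω hωe using fun w => cs.exists_isReduced w
  let q : W → ℕ := fun g => ((ω g).map k).prod
  have hq : ∀ (η : List B), cs.IsReduced η → q (cs.wordProd η) = (η.map k).prod := by
    intro η hη
    obtain ⟨c⟩ := ‹Nonempty Φ›
    have h1 := (word hδ hk η hη c).2
    have h2 := (word hδ hk (ω (cs.wordProd η)) (hω _) c).2
    rw [← hωe] at h2
    rw [← h1, h2]
  have hqs : ∀ b, q (cs.simple b) = k b := by
    intro b
    have h1 : cs.simple b = cs.wordProd [b] := by simp
    rw [h1, hq [b]]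
    · simp
    · have : cs.length (cs.wordProd [b]) = [b].length := by simp
      exact this
  have hcard : ∀ g c₀, {c | δ c c₀ = g}.Finite ∧ {c | δ c c₀ = g}.ncard = q g := by
    intro g c₀
    have := word hδ hk (ω g) (hω g) c₀
    rw [← hωe] at this
    exact this
  refine ⟨fun g => q g, ⟨?_, ?_, ?_, ?_⟩, ?_, ?_, ?_⟩
  · have := hq [] (by have : cs.length (cs.wordProd []) = ([] : List B).length := by simp
                      exact this)
    rw [cs.wordProd_nil] at this
    rw [this]
    simp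
  · intro w
    have : 0 < q w := List.prod_pos (by
      intro a ha
      obtain ⟨b, _, rfl⟩ := List.mem_map.1 ha
      exact k_pos hδ hk b)
    exact_mod_cast this
  · intro w b hlt
    have hr : cs.IsReduced (b :: ω w) := by
      have h1 : cs.length (cs.wordProd (b :: ω w)) = (b :: ω w).length := by
        rw [cs.wordProd_cons, ← hωe, List.length_cons, ← (hω w).eq, ← hωe]
        rcases cs.length_simple_mul w b with h | h <;> omega
      exact h1
    have h2 := hq _ hr
    rw [cs.wordProd_cons, ← hωe] at h2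
    rw [h2, hqs]
    simp [q]
  · intro w b hlt
    have he : w * cs.simple b = cs.wordProd (ω w ++ [b]) := by
      rw [cs.wordProd_append, ← hωe]
      simp
    have hr : cs.IsReduced (ω w ++ [b]) := by
      have h1 : cs.length (cs.wordProd (ω w ++ [b])) = (ω w ++ [b]).length := by
        rw [← he, List.length_append, ← (hω w).eq, ← hωe]
        have : [b].length = 1 := rfl
        rcases cs.length_mul_simple w b with h | h <;> omega
      exact h1
    have h2 := hq _ hr
    rw [he, h2, hqs]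
    simp [q]
  · intro g c₀
    exact ⟨(hcard g c₀).1, by rw [(hcard g c₀).2]⟩
  · intro b g c₀ hg f hf
    rw [sum_step hδ hk b g c₀ hg (hcard g c₀).1 f hf]
    simp only [hqs]
    push_cast
    rfl
  · intro T hT
    classical
    have := Fintype.ofFinite (par cs T)
    refine ⟨∑ u : par cs T, q (u : W)⁻¹, fun c => ?_⟩
    have h1 : {d | δ c d ∈ par cs T} = ⋃ u : par cs T, {d | δ d c = (u : W)⁻¹} := by
      ext d
      simp only [Set.mem_iUnion, Set.mem_ofPred_eq]
      constructor
      · intro h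
        exact ⟨⟨δ c d, h⟩, symm hδ c d⟩
      · rintro ⟨u, hu⟩
        rw [symm hδ, hu, inv_inv]
        exact u.2
    have hf : {d | δ c d ∈ par cs T}.Finite := by
      rw [h1]
      exact Set.finite_iUnion fun u => (hcard _ c).1
    refine ⟨hf, ?_⟩
    rw [Set.ncard_eq_toFinset_card _ hf]
    have h2 : hf.toFinset ⊆ Finset.univ.biUnion (fun u : par cs T => (hcard (u : W)⁻¹ c).1.toFinset) := by
      intro d hd
      rw [Set.Finite.mem_toFinset] at hd
      rw [Finset.mem_biUnion]
      refine ⟨⟨δ c d, hd⟩, Finset.mem_univ _, ?_⟩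
      rw [Set.Finite.mem_toFinset]
      exact symm hδ c d
    refine (Finset.card_le_card h2).trans (Finset.card_biUnion_le.trans ?_)
    refine Finset.sum_le_sum fun u _ => ?_
    rw [← Set.ncard_eq_toFinset_card _ (hcard (u : W)⁻¹ c).1, (hcard _ c).2]

end Pool.Agent.Q169.ZE
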