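import Pool.Agent.Q169.ZE.Radb
import Pool.Agent.Q169.ZD.Trans2

/-!
# Square summable cochains on the Davis realisation and functions of chambers
-/

set_option autoImplicit false
set_option linter.unusedSectionVars false

namespace Pool.Agent.Q169.ZE

open Pool.Agent.Q169.ZD Q27.Cox

theorem rada (hd : S_KDEG) : S_RADA := by
  intro B _ _ M W _ cs Φ δ hδ hm E bd κ k1 k2 k4 hL f hf2 hfi hf0
  -- the cochain
  let F : ∀ n, E n → ℂ := fun n x => f ((k1 n x).choose.1, (k1 n x).choose_spec.choose)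
  have hF : ∀ n (p : {p : Itv cs // p.deg = n}) c, F n (κ n p c) = f (p.1, c) := by
    intro n p c
    have h1 := (k1 n (κ n p c)).choose_spec.choose_spec
    rw [k2] at h1
    obtain ⟨h1, h2⟩ := h1
    change f ((k1 n (κ n p c)).choose.1, (k1 n (κ n p c)).choose_spec.choose) = _
    have h3 : ∀ (p' : {p : Itv cs // p.deg = n}) (c' : Φ), p = p' →
        δ c c' ∈ par cs (p.1.lo : Set B) → f (p'.1, c') = f (p.1, c) := by
      rintro p' c' rfl h
      exact (hfi p.1 c c' h).symm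
    exact h3 _ _ h1 h2
  have hF2 : ∀ n, Memℓp (F n) 2 := by
    intro n
    refine memlp_inj hf2 (g := fun x => ((k1 n x).choose.1, (k1 n x).choose_spec.choose)) ?_
    intro x y hxy
    rw [Prod.mk.injEq] at hxy
    obtain ⟨h1, h2⟩ := hxy
    rw [(k1 n x).choose_spec.choose_spec, (k1 n y).choose_spec.choose_spec, k2]
    refine ⟨Subtype.ext h1, ?_⟩
    rw [h2, self hδ]
    exact one_mem _
  -- the coboundary on cochains given by functions
  have hsum : ∀ n (p : {p : Itv cs // p.deg = n + 1}) c (G : E n → ℂ),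
      evc G (bd n (Finsupp.single (κ (n + 1) p c) 1)) =
        ∑ p' : {p : Itv cs // p.deg = n}, ((kinc p.1 p'.1 : ℤ) : ℂ) * G (κ n p' c) := by
    intro n p c G
    rw [k4, map_sum]
    refine Finset.sum_congr rfl fun p' _ => ?_
    rw [map_zsmul, evc_apply, Finsupp.sum_single_index (by simp), zsmul_eq_mul]
    simp
  have htot : ∀ n (p : Itv cs), p.deg = n + 1 → ∀ (g : Itv cs → ℂ),
      ∑ p' : {p : Itv cs // p.deg = n}, ((kinc p p'.1 : ℤ) : ℂ) * g p'.1 =
        ∑ p', ((kinc p p' : ℤ) : ℂ) * g p' := by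
    intro n p hp g
    classical
    rw [← Finset.sum_subtype (Finset.univ.filter fun p' : Itv cs => p'.deg = n)
      (fun p' => by simp) (fun p' => ((kinc p p' : ℤ) : ℂ) * g p')]
    refine Finset.sum_filter_of_ne fun p' _ hne => ?_
    by_contra hcon
    apply hne
    have : kinc p p' = 0 := by
      by_contra h0
      have := ((hd B M W cs).1 p p' h0).1
      omega
    rw [this]
    simp
  have hclosed : ∀ n (e : E (n + 1)), evc (F n) (bd n (Finsupp.single e 1)) = 0 := by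
    intro n e
    obtain ⟨p, c, rfl⟩ := k1 (n + 1) e
    rw [hsum]
    have h1 := htot n p.1 p.2 (fun p' => f (p', c))
    rw [hf0] at h1
    rw [← h1]
    exact Finset.sum_congr rfl fun p' _ => by rw [hF]
  have hF0 : F 0 = 0 := hL.1 (F 0) (hF2 0) (hclosed 0)
  have hprim : ∀ n, ∃ G : E n → ℂ, Memℓp G 2 ∧ ∀ e : E (n + 1),
      F (n + 1) e = evc G (bd n (Finsupp.single e 1)) := fun n =>
    hL.2 n (F (n + 1)) (hF2 (n + 1)) (hclosed (n + 1))
  choose G hG2 hG using hprim
  have hcast : ∀ n (p : {p : Itv cs // p.deg = n}) c,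
      G p.1.deg (κ p.1.deg ⟨p.1, rfl⟩ c) = G n (κ n p c) := by
    rintro _ ⟨p, rfl⟩ c
    rfl
  refine ⟨fun x => G x.1.deg (κ x.1.deg ⟨x.1, rfl⟩ x.2), ?_, ?_, ?_⟩
  · -- square summable
    refine memlp_prod fun p => ?_
    change Memℓp (fun c => G p.deg (κ p.deg ⟨p, rfl⟩ c)) 2
    rw [memlp2_iff]
    have hsph : Finite (par cs (p.lo : Set B)) := by
      have := p.sph
      have hle : par cs (p.lo : Set B) ≤ par cs (p.hi : Set B) :=
        Subgroup.closure_mono (Set.image_mono (by exact_mod_cast p.le :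
          (p.lo : Set B) ⊆ p.hi))
      exact Finite.of_injective _ (Subgroup.inclusion_injective hle)
    obtain ⟨m, hm⟩ := hm (p.lo : Set B) hsph
    have hfib : ∀ x : E p.deg, {c | κ p.deg ⟨p, rfl⟩ c = x}.Finite ∧
        {c | κ p.deg ⟨p, rfl⟩ c = x}.ncard ≤ m := by
      intro x
      rcases Set.eq_empty_or_nonempty {c | κ p.deg ⟨p, rfl⟩ c = x} with h | ⟨c, hc⟩
      · rw [h]
        exact ⟨Set.finite_empty, by simp⟩
      · have hc' : κ p.deg ⟨p, rfl⟩ c = x := hc
        have h1 : {c' | κ p.deg ⟨p, rfl⟩ c' = x} = {d | δ c d ∈ par cs (p.lo : Set B)} := by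
          ext d
          rw [Set.mem_ofPred_eq, Set.mem_ofPred_eq, ← hc', eq_comm, k2]
          exact ⟨fun h => h.2, fun h => ⟨rfl, h⟩⟩
        rw [h1]
        exact hm c
    rw [summable_fibre (fun c => κ p.deg ⟨p, rfl⟩ c) (fun x => (hfib x).1) _
      (fun _ => by positivity)]
    have h1 := ((memlp2_iff _).1 (hG2 p.deg)).mul_left (m : ℝ)
    refine Summable.of_nonneg_of_le (fun _ => by positivity) (fun x => ?_) h1
    have h2 : ∀ c ∈ (hfib x).1.toFinset, ‖G p.deg (κ p.deg ⟨p, rfl⟩ c)‖ ^ 2 = ‖G p.deg x‖ ^ 2 := by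
      intro c hc
      rw [Set.Finite.mem_toFinset] at hc
      have hc' : κ p.deg ⟨p, rfl⟩ c = x := hc
      rw [hc']
    rw [Finset.sum_congr rfl h2, Finset.sum_const, nsmul_eq_mul,
      ← Set.ncard_eq_toFinset_card _ (hfib x).1]
    have h3 : (({c | κ p.deg ⟨p, rfl⟩ c = x}.ncard : ℕ) : ℝ) ≤ m := by exact_mod_cast (hfib x).2
    gcongr
  · intro p c c' hcc
    change G p.deg (κ p.deg ⟨p, rfl⟩ c) = G p.deg (κ p.deg ⟨p, rfl⟩ c')
    rw [(k2 p.deg ⟨p, rfl⟩ ⟨p, rfl⟩ c c').2 ⟨rfl, hcc⟩]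
  · intro p c
    change ∑ p', ((kinc p p' : ℤ) : ℂ) * G p'.deg (κ p'.deg ⟨p', rfl⟩ c) = f (p, c)
    rcases hn : p.deg with _ | n
    · have h1 : ∀ p', kinc p p' = 0 := by
        intro p'
        by_contra h0
        have := ((hd B M W cs).1 p p' h0).1
        omega
      rw [← hF 0 ⟨p, hn⟩ c, hF0]
      refine Finset.sum_eq_zero fun p' _ => ?_
      rw [h1 p']
      simp
    · rw [← hF (n + 1) ⟨p, hn⟩ c, hG, hsum,
        ← htot n p hn (fun p' => G p'.deg (κ p'.deg ⟨p', rfl⟩ c))]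
      refine Finset.sum_congr rfl fun p' _ => ?_
      rw [hcast]

end Pool.Agent.Q169.ZE
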