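import Pool.Agent.Q169.ZD.Final2
import Pool.Agent.Q169.ZE.Cnt
import Pool.Agent.Q169.ZE.Bu
import Pool.Agent.Q169.ZE.Rada
import Pool.Agent.Q68.ZD.Extw
import Pool.Agent.Q68.ZD.Kc
import Pool.Agent.Q68.ZD.Kh
import Pool.Agent.Q68.ZD.Lim
import Pool.Agent.Q68.ZD.Gr

/-!
# Zero in the spectrum for uniform lattices of locally finite regular buildings
-/

set_option autoImplicit false

namespace Pool.Agent.Q169.ZE

open Pool.Agent.Q169.ZD
open Pool.Agent.H919R4.ZS (FinRes toRed)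

theorem final3 {B : Type} [Finite B] {M : CoxeterMatrix B} {W : Type} [Group W]
    (cs : CoxeterSystem M W) {Φ : Type} [Nonempty Φ] (δ : Φ → Φ → W) (hδ : IsBuilding cs δ)
    (k : B → ℕ) (hk : ∀ b c, {c' | δ c' c = cs.simple b}.encard = k b)
    (N : Type) [Group N] [MulAction N Φ] (hN : ∀ (n : N) c d, δ (n • c) (n • d) = δ c d)
    (hst : ∀ c : Φ, Finite (MulAction.stabilizer N c))
    (hco : Finite (MulAction.orbitRel.Quotient N Φ))
    (htf : ∀ n : N, IsOfFinOrder n → n = 1) :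
    Nonempty (FinRes N) ∧ ∀ X : FinRes N, ∃ i, Nontrivial (X.homology (toRed N) i) := by
  classical
  obtain ⟨n, ⟨e⟩⟩ := Finite.exists_equiv_fin B
  letI : LinearOrder B := LinearOrder.lift' e e.injective
  exact final2_aux cs Pool.Agent.Q68.ZD.extw bld cnt Pool.Agent.Q68.ZD.kdeg Pool.Agent.Q68.ZD.ksq
    Pool.Agent.Q68.ZD.lim (bu Pool.Agent.Q68.ZD.kdeg Pool.Agent.Q68.ZD.ksq Pool.Agent.Q68.ZD.gr
      (mat Pool.Agent.Q68.ZD.kh)) (rada Pool.Agent.Q68.ZD.kdeg) radb δ hδ k hk N hN hst hco htf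

end Pool.Agent.Q169.ZE
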