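import Pool.Agent.Q169.ZE.Bld

/-!
# The homotopy on the Davis realisation of a building
-/

set_option autoImplicit false
set_option linter.unusedSectionVars false

namespace Pool.Agent.Q169.ZE

open Pool.Agent.Q169.ZD Q27.Cox

noncomputable section

open scoped Classical

section

variable {B : Type} {M : CoxeterMatrix B} {W : Type} [Group W] (cs : CoxeterSystem M W)

/-- finitely many elements of bounded length -/
theorem finite_len [Finite B] (n : ℕ) : {w : W | cs.length w ≤ n}.Finite := by
  have h : {w : W | cs.length w ≤ n} ⊆ cs.wordProd '' {l : List B | l.length ≤ n} := by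
    intro w hw
    obtain ⟨ω, h1, h2⟩ := cs.exists_isReduced w
    refine ⟨ω, ?_, h2.symm⟩
    change ω.length ≤ n
    rw [← h1.eq, ← h2]
    exact hw
  exact (List.finite_length_le B n).image _ |>.subset h

/-- the left descents of `w` -/
def desc [Finite B] (w : W) : Finset B :=
  (Set.toFinite {b : B | cs.length (cs.simple b * w) < cs.length w}).toFinset

theorem mem_desc [Finite B] (w : W) (b : B) :
    b ∈ desc cs w ↔ cs.length (cs.simple b * w) < cs.length w := by
  rw [desc, Set.Finite.mem_toFinset]; rfl

theorem desc_sph [Finite B] (w : W) : Finite (par cs (desc cs w : Set B)) := by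
  have h : ∀ y ∈ par cs (desc cs w : Set B), cs.length y ≤ cs.length w := by
    intro y hy
    have h1 : ∀ i ∈ (desc cs w : Set B), cs.length (w⁻¹ * cs.simple i) < cs.length w⁻¹ := by
      intro i hi
      have h2 := (mem_desc cs w i).1 (by exact_mod_cast hi)
      rw [← cs.length_inv, mul_inv_rev, inv_inv, cs.inv_simple, cs.length_inv]
      exact h2
    have h3 := descents_R h1 hy
    rw [cs.length_inv w] at h3
    omega
  exact ((finite_len cs (cs.length w)).subset (fun y hy => h y hy)).to_subtype

theorem disj_desc_iff [Finite B] (w : W) (T : Finset B) :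
    Disjoint T (desc cs w) ↔ w ∈ L cs (T : Set B) := by
  rw [Finset.disjoint_left]
  constructor
  · intro h j hj
    have h1 := h (show j ∈ T by exact_mod_cast hj)
    rw [mem_desc, not_lt] at h1
    rcases cs.length_simple_mul w j with h2 | h2
    · omega
    · omega
  · intro h j hj hj'
    rw [mem_desc] at hj'
    have := h j (by exact_mod_cast hj)
    omega

theorem desc_empty [Finite B] (w : W) (h : desc cs w = ∅) : w = 1 := by
  by_contra h0
  obtain ⟨b, hb⟩ := cs.exists_leftDescent_of_ne_one h0
  have : b ∈ desc cs w := (mem_desc cs w b).2 hb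
  rw [h] at this
  exact absurd this (Finset.notMem_empty b)

end

theorem lext_single {X Y : Type} (f : X → (Y →₀ ℤ)) (x : X) (n : ℤ) :
    lext f (Finsupp.single x n) = n • f x := by
  rw [lext, Finsupp.sum_single_index]
  rw [zero_smul]

theorem lext_add {X Y : Type} (f : X → (Y →₀ ℤ)) (z z' : X →₀ ℤ) :
    lext f (z + z') = lext f z + lext f z' := by
  exact Finsupp.sum_add_index' (fun _ => zero_smul _ _) (fun _ _ _ => add_smul _ _ _)

/-- `lext` as an additive map -/
def lextH {X Y : Type} (f : X → (Y →₀ ℤ)) : (X →₀ ℤ) →+ (Y →₀ ℤ) where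
  toFun := lext f
  map_zero' := by rw [lext, Finsupp.sum_zero_index]
  map_add' := lext_add f

theorem lextH_apply {X Y : Type} (f : X → (Y →₀ ℤ)) (z : X →₀ ℤ) : lextH f z = lext f z := rfl

theorem lext_sum {X Y J : Type} (f : X → (Y →₀ ℤ)) (s : Finset J) (a : J → ℤ) (x : J → X) :
    lext f (∑ j ∈ s, a j • Finsupp.single (x j) 1) = ∑ j ∈ s, a j • f (x j) := by
  rw [← lextH_apply, map_sum]
  refine Finset.sum_congr rfl fun j _ => ?_
  rw [map_zsmul, lextH_apply, lext_single, one_smul]

theorem mat (hk : S_KH) : S_MATCH := by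
  intro B _ _ M W _ cs Φ δ hδ hΦ X κ k1 k2 deg hdeg bd hbd
  obtain ⟨c₀⟩ := hΦ
  -- the type and the gate of a cell
  choose pr ch hpc using k1
  have hgate : ∀ x, ∃ d, δ (ch x) d ∈ par cs ((pr x).lo : Set B) ∧
      δ d c₀ ∈ L cs ((pr x).lo : Set B) := fun x => gate hδ _ (ch x) c₀
  choose g hg1 hg2 using hgate
  have hx : ∀ x, x = κ (pr x) (g x) := by
    intro x
    conv_lhs => rw [hpc x]
    rw [k2]
    exact ⟨rfl, hg1 x⟩
  have hpr : ∀ p c, pr (κ p c) = p := by
    intro p c
    have := hx (κ p c)
    rw [k2] at this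
    exact this.1.symm
  have hgc : ∀ p c, δ c (g (κ p c)) ∈ par cs (p.lo : Set B) := by
    intro p c
    have := hx (κ p c)
    rw [k2] at this
    exact this.2
  have hgL : ∀ p c, δ (g (κ p c)) c₀ ∈ L cs (p.lo : Set B) := by
    intro p c
    have := hg2 (κ p c)
    rwa [hpr] at this
  let Inn : Φ → Finset B := fun c => desc cs (δ c c₀)
  -- the gate of `κ p c` is `c` if `p.lo` is disjoint from the descents
  have hgd : ∀ p c, Disjoint p.lo (Inn c) → g (κ p c) = c := by
    intro p c h
    rw [disj_desc_iff] at h
    have h1 : δ (g (κ p c)) c ∈ par cs (p.lo : Set B) := by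
      rw [symm hδ]; exact inv_mem (hgc p c)
    exact gate_unique hδ _ _ _ c₀ h1 (hgL p c) h
  have hgl : ∀ p c, ¬ Disjoint p.lo (Inn c) →
      cs.length (δ (g (κ p c)) c₀) < cs.length (δ c c₀) := by
    intro p c h
    rw [disj_desc_iff] at h
    have h1 : δ (g (κ p c)) c ∈ par cs (p.lo : Set B) := by
      rw [symm hδ]; exact inv_mem (hgc p c)
    have h2 := (gate_mul hδ _ _ _ c₀ h1 (hgL p c)).2
    have h3 : cs.length (δ (g (κ p c)) c) ≠ 0 := by
      intro h0
      rw [cs.length_eq_zero_iff, hδ.eq_one_iff] at h0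
      apply h
      rw [← h0]
      exact hgL p (g (κ p c)) |> fun _ => (h0 ▸ hgL p c)
    omega
  have hdisj : ∀ x, Disjoint (pr x).lo (Inn (g x)) := fun x => (disj_desc_iff cs _ _).2 (hg2 x)
  -- the homotopy
  choose hh hh1 hh2 hh3 using fun c => hk B M W cs (Inn c) (desc_sph cs (δ c c₀))
  let h : X → (X →₀ ℤ) := fun x => ∑ p', hh (g x) (pr x) p' • Finsupp.single (κ p' (g x)) 1
  have hcardB := Fintype.ofFinite B
  let N := Fintype.card B
  let ρ : X → ℕ := fun x => cs.length (δ (g x) c₀) * (N + 1) + krank (Inn (g x)) (pr x)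
  have hkr : ∀ I (p : Itv cs), krank I p ≤ N := by
    intro I p
    rw [krank]
    split_ifs
    · exact Nat.zero_le _
    · exact Finset.card_le_univ _
  have hρlt : ∀ x y, cs.length (δ (g y) c₀) < cs.length (δ (g x) c₀) → ρ y < ρ x := by
    intro x y hxy
    have h1 := hkr (Inn (g y)) (pr y)
    have h2 : (cs.length (δ (g y) c₀) + 1) * (N + 1) ≤ cs.length (δ (g x) c₀) * (N + 1) :=
      Nat.mul_le_mul_right _ hxy
    change cs.length (δ (g y) c₀) * (N + 1) + krank (Inn (g y)) (pr y) <
      cs.length (δ (g x) c₀) * (N + 1) + krank (Inn (g x)) (pr x)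
    rw [Nat.add_mul] at h2
    omega
  have hsph0 : Finite (par cs ((∅ : Finset B) : Set B)) := by
    have h0 : par cs ((∅ : Finset B) : Set B) = ⊥ := by
      rw [par, Finset.coe_empty, Set.image_empty, Subgroup.closure_empty]
    rw [h0]
    infer_instance
  let p₀ : Itv cs := ⟨∅, ∅, Finset.Subset.refl _, hsph0⟩
  have hIn0 : Inn c₀ = ∅ := by
    change desc cs (δ c₀ c₀) = ∅
    rw [self hδ]
    ext b
    rw [mem_desc]
    simp
  have hg0 : g (κ p₀ c₀) = c₀ := hgd p₀ c₀ (Finset.disjoint_empty_left _)
  refine ⟨h, ρ, κ p₀ c₀, ?_, ?_, ?_, ?_⟩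
  · rw [hdeg, Itv.deg]
    rfl
  · change ∑ p', hh (g (κ p₀ c₀)) (pr (κ p₀ c₀)) p' • Finsupp.single (κ p' (g (κ p₀ c₀))) 1 = 0
    refine Finset.sum_eq_zero fun p' _ => ?_
    rw [hg0, hpr, hh2 c₀ p₀ hIn0 rfl p', zero_smul]
  · intro x y hxy
    have h1 : (∑ p', hh (g x) (pr x) p' • Finsupp.single (κ p' (g x)) (1 : ℤ)) y ≠ 0 := hxy
    rw [Finsupp.finsetSum_apply] at h1
    obtain ⟨p', _, h2⟩ := Finset.exists_ne_zero_of_sum_ne_zero h1
    rw [Finsupp.smul_apply, Finsupp.single_apply] at h2
    by_cases h3 : κ p' (g x) = y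
    · have h5 : deg x = (pr x).deg := by
        conv_lhs => rw [hx x]
        exact hdeg _ _
      rw [← h3, hdeg, h5]
      rw [if_pos h3] at h2
      have h4 : hh (g x) (pr x) p' ≠ 0 := fun h0 => h2 (by rw [h0, zero_smul])
      exact (hh1 (g x) (pr x) p' h4).2.2.1
    · rw [if_neg h3, smul_zero] at h2
      exact absurd rfl h2
  · intro x hx0 y hy
    -- notation
    set c := g x with hc
    set p := pr x with hp
    have hxe : x = κ p c := hx x
    have hpd : Disjoint p.lo (Inn c) := hdisj x
    have hnot : ¬ (Inn c = ∅ ∧ p.hi = ∅) := by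
      rintro ⟨h1, h2⟩
      apply hx0
      have h3 : δ c c₀ = 1 := desc_empty cs _ h1
      rw [hδ.eq_one_iff] at h3
      have h4 : p = p₀ := by
        have h5 : p.lo = ∅ := Finset.subset_empty.1 (h2 ▸ p.le)
        exact Itv.ext h5 h2
      rw [hxe, h3, h4]
    by_cases hlow : cs.length (δ (g y) c₀) < cs.length (δ c c₀)
    · exact hρlt x y hlow
    · -- coefficients at `y`
      have hkey : ∀ p'' : Itv cs, κ p'' c = y ↔ p'' = pr y ∧ y = κ (pr y) c := by
        intro p''
        constructor
        · intro h1
          have h2 : pr y = p'' := by rw [← h1, hpr]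
          exact ⟨h2.symm, by rw [h2]; exact h1.symm⟩
        · rintro ⟨h1, h2⟩
          rw [h1]
          exact h2.symm
      have hA : (lext bd (h x)) y = ∑ p', hh c p p' * ∑ p'', kinc p' p'' *
          (if κ p'' c = y then 1 else 0) := by
        have h1 : lext bd (h x) = ∑ p', hh c p p' • bd (κ p' c) := by
          exact lext_sum bd Finset.univ (fun p' => hh c p p') (fun p' => κ p' c)
        rw [h1, Finsupp.finsetSum_apply]
        refine Finset.sum_congr rfl fun p' _ => ?_
        rw [hbd, Finsupp.smul_apply, Finsupp.finsetSum_apply, smul_eq_mul]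
        congr 1
        refine Finset.sum_congr rfl fun p'' _ => ?_
        rw [Finsupp.smul_apply, Finsupp.single_apply, smul_eq_mul]
      have hB : (lext h (bd x)) y = ∑ p', kinc p p' * (h (κ p' c)) y := by
        have h1 : lext h (bd x) = ∑ p', kinc p p' • h (κ p' c) := by
          conv_lhs => rw [hxe, hbd]
          exact lext_sum h Finset.univ (fun p' => kinc p p') (fun p' => κ p' c)
        rw [h1, Finsupp.finsetSum_apply]
        exact Finset.sum_congr rfl fun p' _ => rfl
      have hh0 : ∀ p' : Itv cs, Disjoint p'.lo (Inn c) → (h (κ p' c)) y =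
          ∑ p'', hh c p' p'' * (if κ p'' c = y then 1 else 0) := by
        intro p' hp'
        change (∑ p'', hh (g (κ p' c)) (pr (κ p' c)) p'' •
          Finsupp.single (κ p'' (g (κ p' c))) (1 : ℤ)) y = _
        rw [hgd p' c hp', hpr, Finsupp.finsetSum_apply]
        refine Finset.sum_congr rfl fun p'' _ => ?_
        rw [Finsupp.smul_apply, Finsupp.single_apply, smul_eq_mul]
      have hh0' : ∀ p' : Itv cs, ¬ Disjoint p'.lo (Inn c) → (h (κ p' c)) y = 0 := by
        intro p' hp'
        by_contra hne
        have h1 : (∑ p'', hh (g (κ p' c)) (pr (κ p' c)) p'' •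
          Finsupp.single (κ p'' (g (κ p' c))) (1 : ℤ)) y ≠ 0 := hne
        rw [Finsupp.finsetSum_apply] at h1
        obtain ⟨p'', _, h2⟩ := Finset.exists_ne_zero_of_sum_ne_zero h1
        rw [Finsupp.smul_apply, Finsupp.single_apply] at h2
        by_cases h3 : κ p'' (g (κ p' c)) = y
        · rw [if_pos h3] at h2
          have h4 : hh (g (κ p' c)) (pr (κ p' c)) p'' ≠ 0 := fun h0 => h2 (by rw [h0, zero_smul])
          have h5 := (hh1 _ _ _ h4).2.1
          apply hlow
          rw [← h3, hgd p'' _ h5]
          exact hgl p' c hp'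
        · rw [if_neg h3, smul_zero] at h2
          exact absurd rfl h2
      rw [Finsupp.sub_apply, Finsupp.sub_apply, hA, hB, Finsupp.single_apply] at hy
      by_cases hP : y = κ (pr y) c
      · have hdq : Disjoint (pr y).lo (Inn c) := by
          by_contra hcon
          apply hlow
          rw [hP, ← hP]
          have := hgl (pr y) c hcon
          rwa [← hP] at this
        have hgy : g y = c := by
          have := hgd (pr y) c hdq
          rwa [← hP] at this
        have e1 : (if x = y then (1 : ℤ) else 0) = if p = pr y then 1 else 0 := by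
          have : x = y ↔ p = pr y := by
            constructor
            · intro h1; rw [← h1]
            · intro h1; rw [hxe, h1]; exact hP.symm
          simp only [this]
        have e2 : ∀ (a : Itv cs → ℤ), ∑ p'', a p'' * (if κ p'' c = y then 1 else 0) = a (pr y) := by
          intro a
          rw [Finset.sum_eq_single (pr y)]
          · rw [if_pos hP.symm, mul_one]
          · intro p'' _ hne
            rw [if_neg, mul_zero]
            intro h1
            exact hne ((hkey p'').1 h1).1
          · intro h1; exact absurd (Finset.mem_univ _) h1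
        have e3 : ∑ p', kinc p p' * (h (κ p' c)) y =
            ∑ p' ∈ Finset.univ.filter (fun p' : Itv cs => Disjoint p'.lo (Inn c)),
              kinc p p' * hh c p' (pr y) := by
          rw [Finset.sum_filter]
          refine Finset.sum_congr rfl fun p' _ => ?_
          by_cases hp' : Disjoint p'.lo (Inn c)
          · rw [if_pos hp', hh0 p' hp', e2]
          · rw [if_neg hp', hh0' p' hp', mul_zero]
        rw [e1, e3] at hy
        have e4 : ∑ p', hh c p p' * ∑ p'', kinc p' p'' * (if κ p'' c = y then 1 else 0) =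
            ∑ p', hh c p p' * kinc p' (pr y) :=
          Finset.sum_congr rfl fun p' _ => by rw [e2]
        rw [e4] at hy
        have h1 := hh3 c p hpd hnot (pr y) hdq hy
        change cs.length (δ (g y) c₀) * (N + 1) + krank (Inn (g y)) (pr y) <
          cs.length (δ c c₀) * (N + 1) + krank (Inn c) p
        rw [hgy]
        omega
      · exfalso
        apply hy
        have e1 : ∀ p'' : Itv cs, (if κ p'' c = y then (1 : ℤ) else 0) = 0 := by
          intro p''
          rw [if_neg]
          intro h1
          exact hP ((hkey p'').1 h1).2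
        have e2 : ¬ x = y := by
          intro h1
          exact hP ((hkey p).1 (by rw [← hxe]; exact h1)).2
        rw [if_neg e2]
        have e3 : ∑ p', hh c p p' * ∑ p'', kinc p' p'' * (if κ p'' c = y then 1 else 0) = 0 := by
          refine Finset.sum_eq_zero fun p' _ => ?_
          rw [Finset.sum_eq_zero (fun p'' _ => by rw [e1, mul_zero]), mul_zero]
        have e4 : ∑ p', kinc p p' * (h (κ p' c)) y = 0 := by
          refine Finset.sum_eq_zero fun p' _ => ?_
          by_cases hp' : Disjoint p'.lo (Inn c)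
          · rw [hh0 p' hp', Finset.sum_eq_zero (fun p'' _ => by rw [e1, mul_zero]), mul_zero]
          · rw [hh0' p' hp', mul_zero]
        rw [e3, e4]
        simp
end

end Pool.Agent.Q169.ZE
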