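import Pool.Agent.Q169.ZE.Bld
import Pool.Agent.Q169.ZD.Trans3

/-!
# Radial parts
-/

set_option autoImplicit false
set_option linter.unusedSectionVars false

namespace Pool.Agent.Q169.ZE

open Pool.Agent.Q169.ZD Q27.Cox

section

variable {B : Type} {M : CoxeterMatrix B} {W : Type} [Group W] {cs : CoxeterSystem M W}

theorem par_induction {q : W → ℝ} (hq : IsWeight cs q) {T : Set B} {G : W → ℂ}
    (hG : ∀ b ∈ T, ∀ g, cs.length g < cs.length (cs.simple b * g) →
      G (cs.simple b * g) = ((Real.sqrt (q (cs.simple b)) : ℝ) : ℂ) * G g)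
    {m : W} (hm : m ∈ L cs T) (u : W) (hu : u ∈ par cs T) :
    G (u * m) / ((Real.sqrt (q (u * m)) : ℝ) : ℂ) = G m / ((Real.sqrt (q m) : ℝ) : ℂ) := by
  induction hn : cs.length u using Nat.strong_induction_on generalizing u with
  | _ n ih =>
    by_cases h0 : u = 1
    · rw [h0, one_mul]
    · obtain ⟨b, hb⟩ := cs.exists_leftDescent_of_ne_one h0
      have hb' : cs.length (cs.simple b * u) < cs.length u := hb
      have hbT : b ∈ T := descent_mem hu hb'
      have h1 : cs.simple b * u ∈ par cs T := mul_mem (simple_mem hbT) hu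
      have h2 := ih _ (by omega) (cs.simple b * u) h1 rfl
      have h3 := length_mul_L hm h1
      have h4 := length_mul_L hm hu
      have h5 : u * m = cs.simple b * (cs.simple b * u * m) := by
        rw [mul_assoc (cs.simple b) u m, cs.simple_mul_simple_cancel_left]
      have h6 : cs.length (cs.simple b * u * m) < cs.length (cs.simple b * (cs.simple b * u * m)) := by
        rw [← h5]
        omega
      have hb0 : Real.sqrt (q (cs.simple b)) ≠ 0 := (Real.sqrt_pos.2 (hq.pos _)).ne'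
      rw [h5, hG b hbT _ h6, hq.simple_mul _ _ h6, Real.sqrt_mul (hq.pos _).le, ← h2]
      push_cast
      rw [mul_div_mul_left _ _ (by exact_mod_cast hb0)]

/-- summability over the fibres of a map with finite fibres -/
theorem summable_fibre {A G : Type} (π : A → G) (hfin : ∀ g, {a | π a = g}.Finite) (f : A → ℝ)
    (hf : ∀ a, 0 ≤ f a) :
    Summable f ↔ Summable fun g => ∑ a ∈ (hfin g).toFinset, f a := by
  have key : ∀ g, Finite {a // π a = g} := fun g => (hfin g).to_subtype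
  rw [← (Equiv.sigmaFiberEquiv π).summable_iff]
  have h1 := summable_sigma_of_nonneg (f := f ∘ (Equiv.sigmaFiberEquiv π)) (fun _ => hf _)
  rw [h1]
  have h2 : ∀ g, ∑' a : {a // π a = g}, f a = ∑ a ∈ (hfin g).toFinset, f a := by
    intro g
    have := Fintype.ofFinite {a // π a = g}
    rw [tsum_fintype]
    refine (Finset.sum_subtype _ (fun a => ?_) _).symm
    rw [Set.Finite.mem_toFinset]
    rfl
  constructor
  · rintro ⟨-, h⟩
    refine h.congr fun g => ?_
    exact h2 g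
  · intro h
    refine ⟨fun g => ?_, ?_⟩
    · have := key g
      exact Summable.of_finite
    · refine h.congr fun g => ?_
      exact (h2 g).symm

end

theorem radb : S_RADB := by
  intro B _ _ M W _ cs Φ hΦ δ hδ q hq hq1 hq2 hPhi F hF2 hFM hF0
  obtain ⟨c₀⟩ := hΦ
  have hfin : ∀ g, {c | δ c c₀ = g}.Finite := fun g => (hq1 g c₀).1
  have hcard : ∀ g, (((hfin g).toFinset.card : ℕ) : ℝ) = q g := by
    intro g
    rw [← Set.ncard_eq_toFinset_card _ (hfin g)]
    exact (hq1 g c₀).2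
  have hs : ∀ g, Real.sqrt (q g) ≠ 0 := fun g => (Real.sqrt_pos.2 (hq.pos g)).ne'
  have hsC : ∀ g, ((Real.sqrt (q g) : ℝ) : ℂ) ≠ 0 := fun g => by exact_mod_cast hs g
  let f : Itv cs × Φ → ℂ := fun x => F (x.1, δ x.2 c₀) / ((Real.sqrt (q (δ x.2 c₀)) : ℝ) : ℂ)
  -- constant on residues
  have hinv : RInv cs δ f := by
    have hg : ∀ (p : Itv cs) (d e : Φ), δ d e ∈ par cs (p.lo : Set B) →
        δ d c₀ ∈ L cs (p.lo : Set B) → f (p, e) = f (p, d) := by
      intro p d e h1 h2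
      change F (p, δ e c₀) / ((Real.sqrt (q (δ e c₀)) : ℝ) : ℂ) = _
      rw [(gate_mul hδ _ d e c₀ h1 h2).1]
      exact par_induction hq (T := (p.lo : Set B)) (G := fun g => F (p, g))
        (fun b hb g hbg => hFM p b (by exact_mod_cast hb) g hbg) h2 _ (inv_mem h1)
    intro p c c' hcc
    obtain ⟨d, h1, h2⟩ := gate hδ (p.lo : Set B) c c₀
    have h3 : δ d c ∈ par cs (p.lo : Set B) := by rw [symm hδ]; exact inv_mem h1
    rw [hg p d c h3 h2, hg p d c' (trans hδ _ _ _ _ h3 hcc) h2]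
  -- square summable
  have hf2 : Memℓp f 2 := by
    refine memlp_prod fun p => ?_
    rw [memlp2_iff, summable_fibre (fun c => δ c c₀) hfin _ (fun _ => by positivity)]
    have h1 : Summable fun g => ‖F (p, g)‖ ^ 2 :=
      (memlp2_iff _).1 (memlp_inj hF2 (g := fun g : W => (p, g))
        (fun g g' h => (Prod.mk.inj h).2))
    refine h1.congr fun g => ?_
    have h2 : ∀ c ∈ (hfin g).toFinset, ‖f (p, c)‖ ^ 2 = ‖F (p, g)‖ ^ 2 / q g := by
      intro c hc
      rw [Set.Finite.mem_toFinset] at hc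
      have hc' : δ c c₀ = g := hc
      change ‖F (p, δ c c₀) / ((Real.sqrt (q (δ c c₀)) : ℝ) : ℂ)‖ ^ 2 = _
      rw [hc', norm_div, div_pow, Complex.norm_real, Real.norm_eq_abs, sq_abs,
        Real.sq_sqrt (hq.pos g).le]
    rw [Finset.sum_congr rfl h2, Finset.sum_const, nsmul_eq_mul, hcard g]
    field_simp [(hq.pos g).ne']
  -- closed
  have hf0 : ∀ p c, ∑ p', ((kinc p p' : ℤ) : ℂ) * f (p', c) = 0 := by
    intro p c
    have h1 : ∀ p', ((kinc p p' : ℤ) : ℂ) * f (p', c) =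
        ((kinc p p' : ℤ) : ℂ) * F (p', δ c c₀) / ((Real.sqrt (q (δ c c₀)) : ℝ) : ℂ) := by
      intro p'
      change ((kinc p p' : ℤ) : ℂ) * (F (p', δ c c₀) / ((Real.sqrt (q (δ c c₀)) : ℝ) : ℂ)) = _
      rw [mul_div_assoc]
    rw [Finset.sum_congr rfl fun p' _ => h1 p', ← Finset.sum_div, hF0, zero_div]
  obtain ⟨f', hf'2, hf'i, hf'⟩ := hPhi f hf2 hinv hf0
  refine ⟨fun x => (∑ᶠ c ∈ {c | δ c c₀ = x.2}, f' (x.1, c)) / ((Real.sqrt (q x.2) : ℝ) : ℂ),
    ?_, ?_, ?_⟩
  · -- square summable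
    refine memlp_prod fun p => ?_
    rw [memlp2_iff]
    have h1 : Summable fun c => ‖f' (p, c)‖ ^ 2 :=
      (memlp2_iff _).1 (memlp_inj hf'2 (g := fun c : Φ => (p, c))
        (fun g g' h => (Prod.mk.inj h).2))
    rw [summable_fibre (fun c => δ c c₀) hfin _ (fun _ => by positivity)] at h1
    refine Summable.of_nonneg_of_le (fun _ => by positivity) (fun g => ?_) h1
    rw [finsum_mem_eq_finite_toFinset_sum _ (hfin g), norm_div, div_pow, Complex.norm_real,
      Real.norm_eq_abs, sq_abs, Real.sq_sqrt (hq.pos g).le, div_le_iff₀ (hq.pos g), ← hcard g]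
    have h2 : ‖∑ c ∈ (hfin g).toFinset, f' (p, c)‖ ≤ ∑ c ∈ (hfin g).toFinset, ‖f' (p, c)‖ :=
      norm_sum_le _ _
    have h3 : ‖∑ c ∈ (hfin g).toFinset, f' (p, c)‖ ^ 2 ≤
        (∑ c ∈ (hfin g).toFinset, ‖f' (p, c)‖) ^ 2 := by
      gcongr
    refine h3.trans ?_
    have h4 := sq_sum_le_card_mul_sum_sq (s := (hfin g).toFinset) (f := fun c => ‖f' (p, c)‖)
    rw [mul_comm]
    exact h4
  · intro p b hb g hg
    have h1 := hq2 b g c₀ hg (fun c => f' (p, c)) (fun c c' hcc => by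
      refine hf'i p c' c ?_
      rw [hcc]
      exact simple_mem (by exact_mod_cast hb))
    change (∑ᶠ c ∈ {c | δ c c₀ = cs.simple b * g}, f' (p, c)) /
        ((Real.sqrt (q (cs.simple b * g)) : ℝ) : ℂ) = ((Real.sqrt (q (cs.simple b)) : ℝ) : ℂ) *
        ((∑ᶠ c ∈ {c | δ c c₀ = g}, f' (p, c)) / ((Real.sqrt (q g) : ℝ) : ℂ))
    rw [h1, hq.simple_mul _ _ hg, Real.sqrt_mul (hq.pos _).le]
    have h2 : ((q (cs.simple b) : ℝ) : ℂ) = ((Real.sqrt (q (cs.simple b)) : ℝ) : ℂ) *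
        ((Real.sqrt (q (cs.simple b)) : ℝ) : ℂ) := by
      rw [← Complex.ofReal_mul, Real.mul_self_sqrt (hq.pos _).le]
    rw [h2]
    push_cast
    have h3 := hsC (cs.simple b)
    have h4 := hsC g
    field_simp
  · intro p g
    change ∑ p', ((kinc p p' : ℤ) : ℂ) * ((∑ᶠ c ∈ {c | δ c c₀ = g}, f' (p', c)) /
      ((Real.sqrt (q g) : ℝ) : ℂ)) = F (p, g)
    have h1 : ∀ p', ((kinc p p' : ℤ) : ℂ) * ((∑ᶠ c ∈ {c | δ c c₀ = g}, f' (p', c)) /
      ((Real.sqrt (q g) : ℝ) : ℂ)) = (∑ c ∈ (hfin g).toFinset, ((kinc p p' : ℤ) : ℂ) * f' (p', c)) /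
      ((Real.sqrt (q g) : ℝ) : ℂ) := by
      intro p'
      rw [finsum_mem_eq_finite_toFinset_sum _ (hfin g), ← Finset.mul_sum, mul_div_assoc]
    rw [Finset.sum_congr rfl fun p' _ => h1 p', ← Finset.sum_div, Finset.sum_comm]
    have h2 : ∀ c ∈ (hfin g).toFinset, ∑ p', ((kinc p p' : ℤ) : ℂ) * f' (p', c) =
        F (p, g) / ((Real.sqrt (q g) : ℝ) : ℂ) := by
      intro c hc
      rw [Set.Finite.mem_toFinset] at hc
      have hc' : δ c c₀ = g := hc
      rw [hf' p c]
      change F (p, δ c c₀) / ((Real.sqrt (q (δ c c₀)) : ℝ) : ℂ) = _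
      rw [hc']
    rw [Finset.sum_congr rfl h2, Finset.sum_const, nsmul_eq_mul]
    have h3 : (((hfin g).toFinset.card : ℕ) : ℂ) = ((Real.sqrt (q g) : ℝ) : ℂ) *
        ((Real.sqrt (q g) : ℝ) : ℂ) := by
      rw [← Complex.ofReal_mul, Real.mul_self_sqrt (hq.pos _).le, ← hcard g]
      simp
    rw [h3]
    have h4 := hsC g
    field_simp

end Pool.Agent.Q169.ZE
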